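import Pool.Agent.Helper4.T7.StD

/-! # Project T7 (MP_1d384c_nt): module ExB (from the functions V, B to the symbol) -/

set_option autoImplicit false

namespace Pool.Agent.Helper36.T7

open Pool.Agent.Helper14.CV (Homog EqC act Tl StFar StFex)
open Pool.Agent.Helper14.W5 (tr5)
open Pool.Agent.Helper28.T7 (HTy SymH)
open Pool.Agent.Helper4.T7

section

variable {R : Type} [AddCommGroup R]

/-- the value of the path from `b/d` to `a/c` -/
private def EE (V B : ℤ → ℤ → ℤ → ℤ → R) (a b c d : ℤ) : R :=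
  if (7 : ℤ) ∣ c then V a b c d
  else if (7 : ℤ) ∣ d then -V b (-a) d (-c)
  else if (7 : ℤ) ∣ c + d then V (a + b) b (c + d) d - V (a + b) (-a) (c + d) (-c)
  else if (7 : ℤ) ∣ c - d then V (a - b) b (c - d) d - V (a - b) a (c - d) c
  else if (7 : ℤ) ∣ c - 2 * d then B (a - 2 * b) b (c - 2 * d) d
  else if (7 : ℤ) ∣ 2 * c + d then -B (2 * a + b) (-a) (2 * c + d) (-c)
  else if (7 : ℤ) ∣ 2 * c - d then
    V (2 * a - b) (b - a) (2 * c - d) (d - c) - B (2 * a - b) (b - a) (2 * c - d) (d - c) -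
      V (2 * a - b) a (2 * c - d) c
  else V (a + 2 * b) b (c + 2 * d) d + B (a + 2 * b) (-(a + b)) (c + 2 * d) (-(c + d)) -
    V (a + 2 * b) (-(a + b)) (c + 2 * d) (-(c + d))

variable {V B : ℤ → ℤ → ℤ → ℤ → R}

private theorem ev0 {a b c d : ℤ} (hc : (7 : ℤ) ∣ c) : EE V B a b c d = V a b c d := by
  unfold EE
  rw [if_pos hc]

private theorem evI {a b c d : ℤ} (hc : ¬ (7 : ℤ) ∣ c) (hd : (7 : ℤ) ∣ d) :
    EE V B a b c d = -V b (-a) d (-c) := by
  unfold EE
  rw [if_neg hc, if_pos hd]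

private theorem ev6 {a b c d : ℤ} (hd : ¬ (7 : ℤ) ∣ d) (h : (7 : ℤ) ∣ c + d) :
    EE V B a b c d = V (a + b) b (c + d) d - V (a + b) (-a) (c + d) (-c) := by
  unfold EE
  rw [if_neg (by omega), if_neg hd, if_pos h]

private theorem ev1 {a b c d : ℤ} (hd : ¬ (7 : ℤ) ∣ d) (h : (7 : ℤ) ∣ c - d) :
    EE V B a b c d = V (a - b) b (c - d) d - V (a - b) a (c - d) c := by
  unfold EE
  rw [if_neg (by omega), if_neg hd, if_neg (by omega), if_pos h]

private theorem ev2 {a b c d : ℤ} (hd : ¬ (7 : ℤ) ∣ d) (h : (7 : ℤ) ∣ c - 2 * d) :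
    EE V B a b c d = B (a - 2 * b) b (c - 2 * d) d := by
  unfold EE
  rw [if_neg (by omega), if_neg hd, if_neg (by omega), if_neg (by omega), if_pos h]

private theorem ev3 {a b c d : ℤ} (hd : ¬ (7 : ℤ) ∣ d) (h : (7 : ℤ) ∣ 2 * c + d) :
    EE V B a b c d = -B (2 * a + b) (-a) (2 * c + d) (-c) := by
  unfold EE
  rw [if_neg (by omega), if_neg hd, if_neg (by omega), if_neg (by omega), if_neg (by omega),
    if_pos h]

private theorem ev4 {a b c d : ℤ} (hd : ¬ (7 : ℤ) ∣ d) (h : (7 : ℤ) ∣ 2 * c - d) :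
    EE V B a b c d = V (2 * a - b) (b - a) (2 * c - d) (d - c) -
      B (2 * a - b) (b - a) (2 * c - d) (d - c) - V (2 * a - b) a (2 * c - d) c := by
  unfold EE
  rw [if_neg (by omega), if_neg hd, if_neg (by omega), if_neg (by omega), if_neg (by omega),
    if_neg (by omega), if_pos h]

private theorem ev5 {a b c d : ℤ} (hd : ¬ (7 : ℤ) ∣ d) (h : (7 : ℤ) ∣ c + 2 * d) :
    EE V B a b c d = V (a + 2 * b) b (c + 2 * d) d +
      B (a + 2 * b) (-(a + b)) (c + 2 * d) (-(c + d)) -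
      V (a + 2 * b) (-(a + b)) (c + 2 * d) (-(c + d)) := by
  unfold EE
  rw [if_neg (by omega), if_neg hd, if_neg (by omega), if_neg (by omega), if_neg (by omega),
    if_neg (by omega), if_neg (by omega)]

private theorem not_both {a b c d : ℤ} (h : a * d - b * c = 1) (hc : (7 : ℤ) ∣ c) :
    ¬ (7 : ℤ) ∣ d := by
  rintro ⟨k, rfl⟩
  obtain ⟨l, rfl⟩ := hc
  have e : a * (7 * k) - b * (7 * l) = 7 * (a * k - b * l) := by ring
  omega

/-- the classes -/
private theorem cls {a b c d : ℤ} (h : a * d - b * c = 1) :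
    ((7 : ℤ) ∣ c ∧ ¬ (7 : ℤ) ∣ d) ∨ ((7 : ℤ) ∣ d ∧ ¬ (7 : ℤ) ∣ c) ∨
    ((7 : ℤ) ∣ c + d ∧ ¬ (7 : ℤ) ∣ d) ∨ ((7 : ℤ) ∣ c - d ∧ ¬ (7 : ℤ) ∣ d) ∨
    ((7 : ℤ) ∣ c - 2 * d ∧ ¬ (7 : ℤ) ∣ d) ∨ ((7 : ℤ) ∣ 2 * c + d ∧ ¬ (7 : ℤ) ∣ d) ∨
    ((7 : ℤ) ∣ 2 * c - d ∧ ¬ (7 : ℤ) ∣ d) ∨ ((7 : ℤ) ∣ c + 2 * d ∧ ¬ (7 : ℤ) ∣ d) := by
  have hb : (7 : ℤ) ∣ c → ¬ (7 : ℤ) ∣ d := not_both h
  have h1 : c % 7 = 0 ∨ c % 7 = 1 ∨ c % 7 = 2 ∨ c % 7 = 3 ∨ c % 7 = 4 ∨ c % 7 = 5 ∨ c % 7 = 6 := by
    omega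
  have h2 : d % 7 = 0 ∨ d % 7 = 1 ∨ d % 7 = 2 ∨ d % 7 = 3 ∨ d % 7 = 4 ∨ d % 7 = 5 ∨ d % 7 = 6 := by
    omega
  by_cases hc : (7 : ℤ) ∣ c
  · exact Or.inl ⟨hc, hb hc⟩
  by_cases hd : (7 : ℤ) ∣ d
  · exact Or.inr (Or.inl ⟨hd, hc⟩)
  have key : (7 : ℤ) ∣ c + d ∨ (7 : ℤ) ∣ c - d ∨ (7 : ℤ) ∣ c - 2 * d ∨ (7 : ℤ) ∣ 2 * c + d ∨
      (7 : ℤ) ∣ 2 * c - d ∨ (7 : ℤ) ∣ c + 2 * d := by
    rcases h1 with h1 | h1 | h1 | h1 | h1 | h1 | h1 <;>
      rcases h2 with h2 | h2 | h2 | h2 | h2 | h2 | h2 <;> omega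
  rcases key with k | k | k | k | k | k
  · exact Or.inr (Or.inr (Or.inl ⟨k, hd⟩))
  · exact Or.inr (Or.inr (Or.inr (Or.inl ⟨k, hd⟩)))
  · exact Or.inr (Or.inr (Or.inr (Or.inr (Or.inl ⟨k, hd⟩))))
  · exact Or.inr (Or.inr (Or.inr (Or.inr (Or.inr (Or.inl ⟨k, hd⟩)))))
  · exact Or.inr (Or.inr (Or.inr (Or.inr (Or.inr (Or.inr (Or.inl ⟨k, hd⟩))))))
  · exact Or.inr (Or.inr (Or.inr (Or.inr (Or.inr (Or.inr (Or.inr ⟨k, hd⟩))))))

omit [AddCommGroup R] in
private theorem vcong {U : ℤ → ℤ → ℤ → ℤ → R} {a b c d a' b' c' d' : ℤ} (h1 : a = a') (h2 : b = b')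
    (h3 : c = c') (h4 : d = d') : U a b c d = U a' b' c' d' := by
  subst h1 h2 h3 h4
  rfl

omit [AddCommGroup R] in
private theorem mvc {U : ℤ → ℤ → ℤ → ℤ → R} {a b c d p q r s a' b' c' d' : ℤ}
    (h1 : a * p + b * r = a') (h2 : a * q + b * s = b')
    (h3 : c * p + d * r = c') (h4 : c * q + d * s = d') : mV U a b c d p q r s = U a' b' c' d' := by
  subst h1 h2 h3 h4
  rfl

/-- the sign -/
private theorem ee_neg
    (hneg : ∀ a b c d : ℤ, a * d - b * c = 1 → (7 : ℤ) ∣ c →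
      V (-a) (-b) (-c) (-d) = V a b c d ∧ B (-a) (-b) (-c) (-d) = B a b c d)
    {a b c d : ℤ} (h : a * d - b * c = 1) : EE V B (-a) (-b) (-c) (-d) = EE V B a b c d := by
  rcases cls h with ⟨k, hd⟩ | ⟨k, hd⟩ | ⟨k, hd⟩ | ⟨k, hd⟩ | ⟨k, hd⟩ | ⟨k, hd⟩ | ⟨k, hd⟩ | ⟨k, hd⟩
  · rw [ev0 (by omega), ev0 k]
    exact (hneg a b c d h k).1
  · rw [evI (by omega) (by omega), evI hd k,
      ← (hneg b (-a) d (-c) (by linear_combination h) k).1]
  · rw [ev6 (by omega) (by omega), ev6 hd k,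
      ← (hneg (a + b) b (c + d) d (by linear_combination h) k).1,
      ← (hneg (a + b) (-a) (c + d) (-c) (by linear_combination h) k).1]
    congr 1 <;> exact vcong (by ring) (by ring) (by ring) (by ring)
  · rw [ev1 (by omega) (by omega), ev1 hd k,
      ← (hneg (a - b) b (c - d) d (by linear_combination h) k).1,
      ← (hneg (a - b) a (c - d) c (by linear_combination h) k).1]
    congr 1 <;> exact vcong (by ring) (by ring) (by ring) (by ring)
  · rw [ev2 (by omega) (by omega), ev2 hd k,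
      ← (hneg (a - 2 * b) b (c - 2 * d) d (by linear_combination h) k).2]
    exact vcong (by ring) (by ring) (by ring) (by ring)
  · rw [ev3 (by omega) (by omega), ev3 hd k,
      ← (hneg (2 * a + b) (-a) (2 * c + d) (-c) (by linear_combination h) k).2]
    congr 1
    exact vcong (by ring) (by ring) (by ring) (by ring)
  · rw [ev4 (by omega) (by omega), ev4 hd k,
      ← (hneg (2 * a - b) (b - a) (2 * c - d) (d - c) (by linear_combination h) k).1,
      ← (hneg (2 * a - b) (b - a) (2 * c - d) (d - c) (by linear_combination h) k).2,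
      ← (hneg (2 * a - b) a (2 * c - d) c (by linear_combination h) k).1]
    congr 1
    · congr 1 <;> exact vcong (by ring) (by ring) (by ring) (by ring)
    · exact vcong (by ring) (by ring) (by ring) (by ring)
  · rw [ev5 (by omega) (by omega), ev5 hd k,
      ← (hneg (a + 2 * b) b (c + 2 * d) d (by linear_combination h) k).1,
      ← (hneg (a + 2 * b) (-(a + b)) (c + 2 * d) (-(c + d)) (by linear_combination h) k).1,
      ← (hneg (a + 2 * b) (-(a + b)) (c + 2 * d) (-(c + d)) (by linear_combination h) k).2]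
    congr 1
    · congr 1 <;> exact vcong (by ring) (by ring) (by ring) (by ring)
    · exact vcong (by ring) (by ring) (by ring) (by ring)

/-- the orientation -/
private theorem ee_S
    (hneg : ∀ a b c d : ℤ, a * d - b * c = 1 → (7 : ℤ) ∣ c →
      V (-a) (-b) (-c) (-d) = V a b c d ∧ B (-a) (-b) (-c) (-d) = B a b c d)
    {a b c d : ℤ} (h : a * d - b * c = 1) : EE V B b (-a) d (-c) = -EE V B a b c d := by
  rcases cls h with ⟨k, hd⟩ | ⟨k, hd⟩ | ⟨k, hd⟩ | ⟨k, hd⟩ | ⟨k, hd⟩ | ⟨k, hd⟩ | ⟨k, hd⟩ | ⟨k, hd⟩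
  · rw [evI hd (by omega), ev0 k, (hneg a b c d h k).1]
  · rw [ev0 k, evI hd k, neg_neg]
  · rw [ev1 (by omega) (by omega), ev6 hd k]
    have e1 : V (b - -a) (-a) (d - -c) (-c) = V (a + b) (-a) (c + d) (-c) :=
      vcong (by ring) rfl (by ring) rfl
    have e2 : V (b - -a) b (d - -c) d = V (a + b) b (c + d) d :=
      vcong (by ring) rfl (by ring) rfl
    rw [e1, e2]
    abel
  · rw [ev6 (by omega) (by omega), ev1 hd k]
    have e1 : V (b + -a) (-a) (d + -c) (-c) = V (a - b) a (c - d) c := by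
      rw [← (hneg (a - b) a (c - d) c (by linear_combination h) k).1]
      exact vcong (by ring) rfl (by ring) rfl
    have e2 : V (b + -a) (-b) (d + -c) (-d) = V (a - b) b (c - d) d := by
      rw [← (hneg (a - b) b (c - d) d (by linear_combination h) k).1]
      exact vcong (by ring) rfl (by ring) rfl
    rw [e1, e2]
    abel
  · rw [ev3 (by omega) (by omega), ev2 hd k,
      ← (hneg (a - 2 * b) b (c - 2 * d) d (by linear_combination h) k).2]
    congr 1
    exact vcong (by ring) (by ring) (by ring) (by ring)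
  · rw [ev2 (by omega) (by omega), ev3 hd k, neg_neg]
    exact vcong (by ring) (by ring) (by ring) (by ring)
  · rw [ev5 (by omega) (by omega), ev4 hd k]
    have e1 : V (b + 2 * -a) (-a) (d + 2 * -c) (-c) = V (2 * a - b) a (2 * c - d) c := by
      rw [← (hneg (2 * a - b) a (2 * c - d) c (by linear_combination h) k).1]
      exact vcong (by ring) rfl (by ring) rfl
    have e2 : B (b + 2 * -a) (-(b + -a)) (d + 2 * -c) (-(d + -c)) =
        B (2 * a - b) (b - a) (2 * c - d) (d - c) := by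
      rw [← (hneg (2 * a - b) (b - a) (2 * c - d) (d - c) (by linear_combination h) k).2]
      exact vcong (by ring) (by ring) (by ring) (by ring)
    have e3 : V (b + 2 * -a) (-(b + -a)) (d + 2 * -c) (-(d + -c)) =
        V (2 * a - b) (b - a) (2 * c - d) (d - c) := by
      rw [← (hneg (2 * a - b) (b - a) (2 * c - d) (d - c) (by linear_combination h) k).1]
      exact vcong (by ring) (by ring) (by ring) (by ring)
    rw [e1, e2, e3]
    abel
  · rw [ev4 (by omega) (by omega), ev5 hd k]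
    have e1 : V (2 * b - -a) (-a - b) (2 * d - -c) (-c - d) =
        V (a + 2 * b) (-(a + b)) (c + 2 * d) (-(c + d)) :=
      vcong (by ring) (by ring) (by ring) (by ring)
    have e2 : B (2 * b - -a) (-a - b) (2 * d - -c) (-c - d) =
        B (a + 2 * b) (-(a + b)) (c + 2 * d) (-(c + d)) :=
      vcong (by ring) (by ring) (by ring) (by ring)
    have e3 : V (2 * b - -a) b (2 * d - -c) d = V (a + 2 * b) b (c + 2 * d) d :=
      vcong (by ring) rfl (by ring) rfl
    rw [e1, e2, e3]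
    abel

/-- the triangle relation -/
private theorem ee_tri
    (hneg : ∀ a b c d : ℤ, a * d - b * c = 1 → (7 : ℤ) ∣ c →
      V (-a) (-b) (-c) (-d) = V a b c d ∧ B (-a) (-b) (-c) (-d) = B a b c d)
    (hB : ∀ a b c d : ℤ, a * d - b * c = 1 → (7 : ℤ) ∣ c →
      B a b c d + mV B a b c d 3 (-1) 7 (-2) + mV B a b c d 2 (-1) 7 (-3) = 0)
    (hC : ∀ a b c d : ℤ, a * d - b * c = 1 → (7 : ℤ) ∣ c →
      (mV V a b c d 2 (-1) 7 (-3) - mV B a b c d 2 (-1) 7 (-3) - mV V a b c d 2 1 7 4) +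
      (mV V a b c d 3 (-2) 14 (-9) - mV B a b c d 3 (-2) 14 (-9) - mV V a b c d 3 1 14 5) +
      (mV V a b c d 1 (-1) 7 (-6) - mV B a b c d 1 (-1) 7 (-6) - mV V a b c d 1 0 7 1) = 0)
    {a b c d : ℤ} (h : a * d - b * c = 1) :
    EE V B a b c d = EE V B a (a + b) c (c + d) + EE V B (a + b) b (c + d) d := by
  rcases cls h with ⟨k, hd⟩ | ⟨k, hd⟩ | ⟨k, hd⟩ | ⟨k, hd⟩ | ⟨k, hd⟩ | ⟨k, hd⟩ | ⟨k, hd⟩ | ⟨k, hd⟩
  · rw [ev0 k, ev0 k, ev1 hd (by omega)]
    have e1 : V (a + b - b) b (c + d - d) d = V a b c d := vcong (by ring) rfl (by ring) rfl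
    have e2 : V (a + b - b) (a + b) (c + d - d) (c + d) = V a (a + b) c (c + d) :=
      vcong (by ring) rfl (by ring) rfl
    rw [e1, e2]
    abel
  · rw [evI hd k, ev1 (by omega) (by omega), evI (by omega) k]
    have e1 : V (a - (a + b)) (a + b) (c - (c + d)) (c + d) = V b (-(a + b)) d (-(c + d)) := by
      rw [← (hneg b (-(a + b)) d (-(c + d)) (by linear_combination h) k).1]
      exact vcong (by ring) (by ring) (by ring) (by ring)
    have e2 : V (a - (a + b)) a (c - (c + d)) c = V b (-a) d (-c) := by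
      rw [← (hneg b (-a) d (-c) (by linear_combination h) k).1]
      exact vcong (by ring) (by ring) (by ring) (by ring)
    rw [e1, e2]
    abel
  · rw [ev6 hd k, evI (by omega) k, ev0 k]
    abel
  · rw [ev1 hd k, ev4 (by omega) (by omega), ev2 hd (by omega)]
    have e1 : V (2 * a - (a + b)) (a + b - a) (2 * c - (c + d)) (c + d - c) =
        V (a - b) b (c - d) d := vcong (by ring) (by ring) (by ring) (by ring)
    have e2 : B (2 * a - (a + b)) (a + b - a) (2 * c - (c + d)) (c + d - c) =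
        B (a - b) b (c - d) d := vcong (by ring) (by ring) (by ring) (by ring)
    have e3 : V (2 * a - (a + b)) a (2 * c - (c + d)) c = V (a - b) a (c - d) c :=
      vcong (by ring) rfl (by ring) rfl
    have e4 : B (a + b - 2 * b) b (c + d - 2 * d) d = B (a - b) b (c - d) d :=
      vcong (by ring) rfl (by ring) rfl
    rw [e1, e2, e3, e4]
    abel
  · rw [ev2 hd k, ev3 (by omega) (by omega), ev3 hd (by omega)]
    have h1 := hB (a - 2 * b) b (c - 2 * d) d (by linear_combination h) k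
    have e1 : mV B (a - 2 * b) b (c - 2 * d) d 3 (-1) 7 (-2) =
        B (2 * a + (a + b)) (-a) (2 * c + (c + d)) (-c) :=
      mvc (by ring) (by ring) (by ring) (by ring)
    have e2 : mV B (a - 2 * b) b (c - 2 * d) d 2 (-1) 7 (-3) =
        B (2 * (a + b) + b) (-(a + b)) (2 * (c + d) + d) (-(c + d)) :=
      mvc (by ring) (by ring) (by ring) (by ring)
    rw [e1, e2] at h1
    rw [← sub_eq_zero, ← h1]
    abel
  · rw [ev3 hd k, ev6 (by omega) (by omega), ev4 hd (by omega)]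
    have e1 : V (a + (a + b)) (a + b) (c + (c + d)) (c + d) =
        V (2 * (a + b) - b) (a + b) (2 * (c + d) - d) (c + d) :=
      vcong (by ring) rfl (by ring) rfl
    have e2 : V (a + (a + b)) (-a) (c + (c + d)) (-c) =
        V (2 * (a + b) - b) (b - (a + b)) (2 * (c + d) - d) (d - (c + d)) :=
      vcong (by ring) (by ring) (by ring) (by ring)
    have e3 : B (2 * a + b) (-a) (2 * c + d) (-c) =
        B (2 * (a + b) - b) (b - (a + b)) (2 * (c + d) - d) (d - (c + d)) :=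
      vcong (by ring) (by ring) (by ring) (by ring)
    rw [e1, e2, e3]
    abel
  · rw [ev4 hd k, ev5 (by omega) (by omega), ev5 hd (by omega)]
    have h1 := hC (a - 4 * b) b (c - 4 * d) d (by linear_combination h) (by omega)
    have e1 : mV V (a - 4 * b) b (c - 4 * d) d 2 (-1) 7 (-3) =
        V (2 * a - b) (b - a) (2 * c - d) (d - c) :=
      mvc (by ring) (by ring) (by ring) (by ring)
    have e2 : mV B (a - 4 * b) b (c - 4 * d) d 2 (-1) 7 (-3) =
        B (2 * a - b) (b - a) (2 * c - d) (d - c) :=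
      mvc (by ring) (by ring) (by ring) (by ring)
    have e3 : mV V (a - 4 * b) b (c - 4 * d) d 2 1 7 4 = V (2 * a - b) a (2 * c - d) c :=
      mvc (by ring) (by ring) (by ring) (by ring)
    have e4 : mV V (a - 4 * b) b (c - 4 * d) d 3 (-2) 14 (-9) =
        V (a + 2 * (a + b)) (-(a + (a + b))) (c + 2 * (c + d)) (-(c + (c + d))) :=
      mvc (by ring) (by ring) (by ring) (by ring)
    have e5 : mV B (a - 4 * b) b (c - 4 * d) d 3 (-2) 14 (-9) =
        B (a + 2 * (a + b)) (-(a + (a + b))) (c + 2 * (c + d)) (-(c + (c + d))) :=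
      mvc (by ring) (by ring) (by ring) (by ring)
    have e6 : mV V (a - 4 * b) b (c - 4 * d) d 3 1 14 5 =
        V (a + 2 * (a + b)) (a + b) (c + 2 * (c + d)) (c + d) :=
      mvc (by ring) (by ring) (by ring) (by ring)
    have e7 : mV V (a - 4 * b) b (c - 4 * d) d 1 (-1) 7 (-6) =
        V (a + b + 2 * b) (-(a + b + b)) (c + d + 2 * d) (-(c + d + d)) :=
      mvc (by ring) (by ring) (by ring) (by ring)
    have e8 : mV B (a - 4 * b) b (c - 4 * d) d 1 (-1) 7 (-6) =
        B (a + b + 2 * b) (-(a + b + b)) (c + d + 2 * d) (-(c + d + d)) :=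
      mvc (by ring) (by ring) (by ring) (by ring)
    have e9 : mV V (a - 4 * b) b (c - 4 * d) d 1 0 7 1 =
        V (a + b + 2 * b) b (c + d + 2 * d) d :=
      mvc (by ring) (by ring) (by ring) (by ring)
    rw [e1, e2, e3, e4, e5, e6, e7, e8, e9] at h1
    rw [← sub_eq_zero, ← h1]
    abel
  · rw [ev5 hd k, ev2 (by omega) (by omega), ev6 hd (by omega)]
    have e1 : B (a - 2 * (a + b)) (a + b) (c - 2 * (c + d)) (c + d) =
        B (a + 2 * b) (-(a + b)) (c + 2 * d) (-(c + d)) := by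
      rw [← (hneg (a + 2 * b) (-(a + b)) (c + 2 * d) (-(c + d)) (by linear_combination h) k).2]
      exact vcong (by ring) (by ring) (by ring) (by ring)
    have e2 : V (a + b + b) b (c + d + d) d = V (a + 2 * b) b (c + 2 * d) d :=
      vcong (by ring) rfl (by ring) rfl
    have e3 : V (a + b + b) (-(a + b)) (c + d + d) (-(c + d)) =
        V (a + 2 * b) (-(a + b)) (c + 2 * d) (-(c + d)) :=
      vcong (by ring) rfl (by ring) rfl
    rw [e1, e2, e3]
    abel

/-- equal values along the edges `g{0, ∞}`, `g{0, 1/2}`, `7 ∣ c`, are enough -/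
private theorem far2 (hfar : StFar) {H : ℤ → ℤ → R} (hH : Homog H)
    (h2 : ∀ a b c d : ℤ, a * d - b * c = 1 → (7 : ℤ) ∣ c → H a c = H b d)
    (h3 : ∀ a b c d : ℤ, a * d - b * c = 1 → (7 : ℤ) ∣ c → H (a + 2 * b) (c + 2 * d) = H b d) :
    EqC H 0 := by
  refine hfar R inferInstance H hH fun a b c d h => ?_
  have hac : a ≠ 0 ∨ c ≠ 0 := by
    by_contra h'
    push Not at h'
    rw [h'.1, h'.2] at h
    simp at h
  have hn : H (-a) (-c) = H a c := by
    have := hH (-1) a c (by norm_num) hac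
    rwa [neg_one_mul, neg_one_mul] at this
  rcases cls h with ⟨k, hd⟩ | ⟨k, hd⟩ | ⟨k, hd⟩ | ⟨k, hd⟩ | ⟨k, hd⟩ | ⟨k, hd⟩ | ⟨k, hd⟩ | ⟨k, hd⟩
  · exact h2 a b c d h k
  · rw [h2 b (-a) d (-c) (by linear_combination h) k, hn]
  · rw [← h2 (a + b) b (c + d) d (by linear_combination h) k,
      h2 (a + b) (-a) (c + d) (-c) (by linear_combination h) k, hn]
  · rw [← h2 (a - b) b (c - d) d (by linear_combination h) k,
      h2 (a - b) a (c - d) c (by linear_combination h) k]
  · have e := h3 (a - 2 * b) b (c - 2 * d) d (by linear_combination h) k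
    rw [← e]
    congr 1 <;> ring
  · have e := h3 (2 * a + b) (-a) (2 * c + d) (-c) (by linear_combination h) k
    rw [← hn, ← e]
    congr 1 <;> ring
  · have e1 := h2 (2 * a - b) (b - a) (2 * c - d) (d - c) (by linear_combination h) k
    have e2 := h3 (2 * a - b) (b - a) (2 * c - d) (d - c) (by linear_combination h) k
    have e3 := h2 (2 * a - b) a (2 * c - d) c (by linear_combination h) k
    have e4 : H (2 * a - b + 2 * (b - a)) (2 * c - d + 2 * (d - c)) = H b d := by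
      congr 1 <;> ring
    rw [← e3, e1, ← e2, e4]
  · have e1 := h2 (a + 2 * b) (-(a + b)) (c + 2 * d) (-(c + d)) (by linear_combination h) k
    have e2 := h3 (a + 2 * b) (-(a + b)) (c + 2 * d) (-(c + d)) (by linear_combination h) k
    have e3 := h2 (a + 2 * b) b (c + 2 * d) d (by linear_combination h) k
    have e4 : H (a + 2 * b + 2 * -(a + b)) (c + 2 * d + 2 * -(c + d)) = H (-a) (-c) := by
      congr 1 <;> ring
    rw [← hn, ← e4, e2, ← e1, e3]

end

private theorem eqc_of_sub {R : Type} [AddCommGroup R] {G H : ℤ → ℤ → R} (h : EqC (G - H) 0) :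
    EqC G H := by
  obtain ⟨k, hk⟩ := h
  refine ⟨k, fun p q hpq => ?_⟩
  have h1 := hk p q hpq
  have h2 : G p q - H p q = k := by
    have h6 : (0 : ℤ → ℤ → R) p q = 0 := rfl
    rw [h6, zero_add] at h1
    exact h1
  rw [← h2]
  abel

/-- Module ExB. -/
theorem hExB (hp : TPlQ) (hx : StFex) (hf : StFar) : TExB := by
  intro R _ r s F V B hVB
  obtain ⟨hneg, hB2, hC2, hgam, hgam2, hbase⟩ := hVB
  obtain ⟨G, hGh, hG⟩ := hx R inferInstance (EE V B) (fun a b c d h =>
    ⟨ee_neg hneg h, ee_S hneg h, ee_tri hneg hB2 hC2 h⟩)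
  have hV : ∀ a b c d : ℤ, a * d - b * c = 1 → (7 : ℤ) ∣ c → V a b c d = G a c - G b d := by
    intro a b c d h hc
    rw [hG a b c d h, ev0 hc]
  have hB : ∀ a b c d : ℤ, a * d - b * c = 1 → (7 : ℤ) ∣ c →
      B a b c d = G (a + 2 * b) (c + 2 * d) - G b d := by
    intro a b c d h hc
    rw [hG (a + 2 * b) b (c + 2 * d) d (by linear_combination h),
      ev2 (not_both h hc) (by omega)]
    exact vcong (by ring) rfl (by ring) rfl
  have hS : ∀ p q : ℤ, (p ≠ 0 ∨ q ≠ 0) → G (-p) (-q) = G p q := by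
    intro p q hpq
    have := hGh (-1) p q (by norm_num) hpq
    rwa [neg_one_mul, neg_one_mul] at this
  refine ⟨G, ⟨hGh, ?_⟩, ?_⟩
  · intro α β γ δ hty hβ hγ
    have hdet0 : α * δ - β * γ ≠ 0 := hty.det_ne
    apply eqc_of_sub
    have hH : Homog (act α β γ δ G - G) := by
      rw [sub_eq_add_neg]
      exact (hGh.act hdet0).add hGh.neg
    rcases hty with ⟨hdet, h2γ⟩ | ⟨hdet, h2α, h2γ, h2δ⟩
    · refine far2 hf hH ?_ ?_
      · intro a b c d h hc
        have hdet1 : (α * a + β * c) * (γ * b + δ * d) - (α * b + β * d) * (γ * a + δ * c) = 1 := by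
          linear_combination (a * d - b * c) * hdet + h
        have h7 : (7 : ℤ) ∣ γ * a + δ * c := dvd_add (h2γ.mul_right _) (hc.mul_left _)
        have e1 := hV _ _ _ _ hdet1 h7
        have e2 := hV a b c d h hc
        rw [(hgam α β γ δ a b c d hdet h2γ hβ hγ h hc).1, e2] at e1
        show G (α * a + β * c) (γ * a + δ * c) - G a c = G (α * b + β * d) (γ * b + δ * d) - G b d
        exact sub_eq_sub_iff_sub_eq_sub.1 e1.symm
      · intro a b c d h hc
        have hdet1 : (α * a + β * c) * (γ * b + δ * d) - (α * b + β * d) * (γ * a + δ * c) = 1 := by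
          linear_combination (a * d - b * c) * hdet + h
        have h7 : (7 : ℤ) ∣ γ * a + δ * c := dvd_add (h2γ.mul_right _) (hc.mul_left _)
        have e1 := hB _ _ _ _ hdet1 h7
        have e2 := hB a b c d h hc
        rw [(hgam α β γ δ a b c d hdet h2γ hβ hγ h hc).2, e2] at e1
        show G (α * (a + 2 * b) + β * (c + 2 * d)) (γ * (a + 2 * b) + δ * (c + 2 * d)) -
          G (a + 2 * b) (c + 2 * d) = G (α * b + β * d) (γ * b + δ * d) - G b d
        have e3 : G (α * a + β * c + 2 * (α * b + β * d)) (γ * a + δ * c + 2 * (γ * b + δ * d)) =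
            G (α * (a + 2 * b) + β * (c + 2 * d)) (γ * (a + 2 * b) + δ * (c + 2 * d)) := by
          congr 1 <;> ring
        rw [e3] at e1
        exact sub_eq_sub_iff_sub_eq_sub.1 e1.symm
    · obtain ⟨α, rfl⟩ := h2α
      obtain ⟨γ, rfl⟩ := h2γ
      obtain ⟨δ, rfl⟩ := h2δ
      have hdet' : 7 * α * δ - β * γ = 1 := by
        have e : 7 * (7 * α * δ - β * γ) = 7 := by linear_combination hdet
        omega
      have hγ' : (5 : ℤ) ^ (s + 1) ∣ γ := by
        have hc5 : IsCoprime ((5 : ℤ) ^ (s + 1)) 7 := by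
          apply IsCoprime.pow_left
          exact ⟨3, -2, by norm_num⟩
        exact hc5.dvd_of_dvd_mul_left hγ
      have main : ∀ a b c d : ℤ, a * d - b * (7 * c) = 1 →
          G (7 * α * a + β * (7 * c)) (7 * γ * a + 7 * δ * (7 * c)) -
            G (7 * α * b + β * d) (7 * γ * b + 7 * δ * d) = G a (7 * c) - G b d ∧
          G (7 * α * (a + 2 * b) + β * (7 * c + 2 * d)) (7 * γ * (a + 2 * b) + 7 * δ * (7 * c + 2 * d)) -
            G (7 * α * b + β * d) (7 * γ * b + 7 * δ * d) = G (a + 2 * b) (7 * c + 2 * d) - G b d := by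
        intro a b c d h
        have h' : a * d - 7 * b * c = 1 := by linear_combination h
        obtain ⟨k1, hk1⟩ : ∃ k1, k1 = 7 * α * b + β * d := ⟨_, rfl⟩
        obtain ⟨k2, hk2⟩ : ∃ k2, k2 = -(α * a + β * c) := ⟨_, rfl⟩
        obtain ⟨k3, hk3⟩ : ∃ k3, k3 = 7 * (γ * b + δ * d) := ⟨_, rfl⟩
        obtain ⟨k4, hk4⟩ : ∃ k4, k4 = -(γ * a + 7 * δ * c) := ⟨_, rfl⟩
        have hkdet : k1 * k4 - k2 * k3 = 1 := by
          rw [hk1, hk2, hk3, hk4]
          linear_combination (a * d - 7 * b * c) * hdet' + h'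
        have hk37 : (7 : ℤ) ∣ k3 := ⟨_, hk3⟩
        obtain ⟨g1, g2⟩ := hgam2 α β γ δ a b c d k1 k2 k3 k4 hdet' hβ hγ' h' hk1 hk2 hk3 hk4
        have v1 := hV k1 k2 k3 k4 hkdet hk37
        have v2 := hV a b (7 * c) d h (dvd_mul_right _ _)
        have v3 := hB a b (7 * c) d h (dvd_mul_right _ _)
        have hMdet : (k1 * 2 + k2 * (-7)) * (k3 * (-1) + k4 * 4) -
            (k1 * (-1) + k2 * 4) * (k3 * 2 + k4 * (-7)) = 1 := by linear_combination hkdet
        have hM7 : (7 : ℤ) ∣ k3 * 2 + k4 * (-7) := by omega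
        have v4 := hV _ _ _ _ hMdet hM7
        have v5 := hB _ _ _ _ hMdet hM7
        have hnz : α * a + β * c ≠ 0 ∨ γ * a + 7 * δ * c ≠ 0 := by
          by_contra hz
          push Not at hz
          rw [hk2, hk4, hz.1, hz.2] at hkdet
          simp at hkdet
        have hn2 : G (7 * α * a + β * (7 * c)) (7 * γ * a + 7 * δ * (7 * c)) = G k2 k4 := by
          have e1 := hGh 7 _ _ (by norm_num) hnz
          rw [hk2, hk4, hS _ _ hnz, ← e1]
          congr 1 <;> ring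
        have hn1 : G (7 * α * b + β * d) (7 * γ * b + 7 * δ * d) = G k1 k3 := by
          rw [hk1, hk3]
          congr 1
          ring
        have hn3 : G (7 * α * (a + 2 * b) + β * (7 * c + 2 * d))
            (7 * γ * (a + 2 * b) + 7 * δ * (7 * c + 2 * d)) = G (k1 * 2 + k2 * (-7)) (k3 * 2 + k4 * (-7)) := by
          rw [hk1, hk2, hk3, hk4]
          congr 1 <;> ring
        have hn4 : G (k1 * 2 + k2 * (-7) + 2 * (k1 * (-1) + k2 * 4))
            (k3 * 2 + k4 * (-7) + 2 * (k3 * (-1) + k4 * 4)) = G k2 k4 := by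
          congr 1 <;> ring
        rw [hn1, hn2, hn3]
        refine ⟨?_, ?_⟩
        · rw [← v2, ← neg_sub, ← v1, g1, neg_neg]
        · rw [← v3, g2]
          unfold mV
          rw [v4, v5, v1, hn4]
          abel
      refine far2 hf hH ?_ ?_
      · intro a b c d h hc
        obtain ⟨c, rfl⟩ := hc
        exact sub_eq_sub_iff_sub_eq_sub.1 (main a b c d h).1
      · intro a b c d h hc
        obtain ⟨c, rfl⟩ := hc
        exact sub_eq_sub_iff_sub_eq_sub.1 (main a b c d h).2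
  · intro i
    funext x y
    obtain ⟨⟨hty, hb, hc⟩, hev⟩ := hp r s x y
    obtain ⟨X, hX⟩ : ∃ X : ℤ, X = (x.val : ℤ) := ⟨_, rfl⟩
    obtain ⟨Y, hY⟩ : ∃ Y : ℤ, Y = yQ x y := ⟨_, rfl⟩
    have hX0 : 0 ≤ X := by rw [hX]; positivity
    simp only [← hX, ← hY] at hty hb hc hev
    have hdet : 1 * (1 + 5 * X * Y) - X * (5 * Y) = 1 := by ring
    have h7 : (7 : ℤ) ∣ 5 * Y := hev.mul_left _
    obtain ⟨f0, f1, f2, f3, f4⟩ := hbase x y 1 X Y (1 + 5 * X * Y) hdet hev hb hc
    have hd1 : ∀ p q r' s' : ℤ, p * s' - q * r' = 1 →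
        (1 * p + X * r') * (5 * Y * q + (1 + 5 * X * Y) * s') -
        (1 * q + X * s') * (5 * Y * p + (1 + 5 * X * Y) * r') = 1 := by
      intro p q r' s' h
      linear_combination h
    have hm7 : ∀ p r' : ℤ, (7 : ℤ) ∣ r' → (7 : ℤ) ∣ 5 * Y * p + (1 + 5 * X * Y) * r' :=
      fun p r' h => dvd_add (h7.mul_right _) (h.mul_left _)
    fin_cases i
    · show edgeQ 1 0 0 1 G x y = F 0 x y
      rw [← f0, hV _ _ _ _ hdet h7]
      unfold edgeQ
      rw [← hX, ← hY]
      congr 1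
      · congr 1 <;> ring
      · congr 1 <;> ring
    · show edgeQ 2 7 0 1 G x y = F 1 x y
      rw [← f1]
      unfold mV
      rw [hV _ _ _ _ (hd1 2 (-1) 7 (-3) (by norm_num)) (hm7 2 7 (by norm_num)),
        hB _ _ _ _ (hd1 2 (-1) 7 (-3) (by norm_num)) (hm7 2 7 (by norm_num))]
      unfold edgeQ
      rw [← hX, ← hY, sub_sub_sub_cancel_right]
      congr 1
      congr 1 <;> ring
    · show edgeQ 1 3 2 7 G x y = F 2 x y
      rw [← f2]
      unfold mV
      rw [hV _ _ _ _ (hd1 2 (-1) 7 (-3) (by norm_num)) (hm7 2 7 (by norm_num)), neg_sub]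
      unfold edgeQ
      rw [← hX, ← hY]
      have hn := hS (1 + X * 3) (5 * Y * 1 + (1 + 5 * X * Y) * 3) (Or.inl (by positivity))
      rw [← hn]
      congr 1
      congr 1 <;> ring
    · show edgeQ 1 2 3 7 G x y = F 3 x y
      rw [← f3]
      unfold mV
      rw [hV _ _ _ _ (hd1 3 (-1) 7 (-2) (by norm_num)) (hm7 3 7 (by norm_num)), neg_sub]
      unfold edgeQ
      rw [← hX, ← hY]
      have hn := hS (1 + X * 2) (5 * Y * 1 + (1 + 5 * X * Y) * 2) (Or.inl (by positivity))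
      rw [← hn]
      congr 1
      congr 1 <;> ring
    · show edgeQ 2 3 4 7 G x y = F 4 x y
      rw [← f4]
      unfold mV
      rw [hV _ _ _ _ (hd1 4 (-3) 7 (-5) (by norm_num)) (hm7 4 7 (by norm_num)),
        hB _ _ _ _ (hd1 4 (-3) 7 (-5) (by norm_num)) (hm7 4 7 (by norm_num))]
      unfold edgeQ
      rw [← hX, ← hY, sub_sub_sub_cancel_right]
      have hn := hS (2 + X * 3) (5 * Y * 2 + (1 + 5 * X * Y) * 3) (Or.inl (by positivity))
      rw [← hn]
      congr 1
      congr 1 <;> ring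

end Pool.Agent.Helper36.T7
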